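import Pool.Agent.Helper31.BQ.Stmts2

/-!
# Row BF of the sheet BQ: the functionals tend to zero on operators of finite rank
-/

set_option autoImplicit false

namespace Pool.Agent.Helper25.BQ

open Pool.Agent.Helper31.BQ Filter Topology

theorem BF_bessel {ι G : Type} [Fintype ι] [DecidableEq ι] [Fintype G] (t : ι → G → ℝ) (N : ℝ)
    (hN : 0 < N) (ht : ∀ i i', ∑ g, t i g * t i' g = if i = i' then N else 0) (u : G → ℝ)
    (c : ι → ℝ) (hc : ∀ i, c i = N⁻¹ * ∑ g, t i g * u g) :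
    N * ∑ i, c i ^ 2 ≤ ∑ g, u g ^ 2 := by
  have h0 : ∀ i, ∑ g, t i g * u g = N * c i := fun i => by
    rw [hc, ← mul_assoc, mul_inv_cancel₀ hN.ne', one_mul]
  have h1 : ∑ g, u g * ∑ i, c i * t i g = N * ∑ i, c i ^ 2 := by
    calc ∑ g, u g * ∑ i, c i * t i g = ∑ g, ∑ i, c i * (t i g * u g) := by
          refine Finset.sum_congr rfl fun g _ => ?_
          rw [Finset.mul_sum]
          exact Finset.sum_congr rfl fun i _ => by ring
      _ = ∑ i, ∑ g, c i * (t i g * u g) := Finset.sum_comm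
      _ = ∑ i, c i * (N * c i) := by
          refine Finset.sum_congr rfl fun i _ => ?_
          rw [← Finset.mul_sum, h0]
      _ = N * ∑ i, c i ^ 2 := by
          rw [Finset.mul_sum]
          exact Finset.sum_congr rfl fun i _ => by ring
  have h2 : ∑ g, (∑ i, c i * t i g) ^ 2 = N * ∑ i, c i ^ 2 := by
    calc ∑ g, (∑ i, c i * t i g) ^ 2 = ∑ g, ∑ i, ∑ i', c i * c i' * (t i g * t i' g) := by
          refine Finset.sum_congr rfl fun g _ => ?_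
          rw [sq, Finset.sum_mul_sum]
          exact Finset.sum_congr rfl fun i _ => Finset.sum_congr rfl fun i' _ => by ring
      _ = ∑ i, ∑ i', c i * c i' * ∑ g, t i g * t i' g := by
          rw [Finset.sum_comm]
          refine Finset.sum_congr rfl fun i _ => ?_
          rw [Finset.sum_comm]
          refine Finset.sum_congr rfl fun i' _ => ?_
          rw [Finset.mul_sum]
      _ = N * ∑ i, c i ^ 2 := by
          rw [Finset.mul_sum]
          refine Finset.sum_congr rfl fun i _ => ?_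
          simp_rw [ht, mul_ite, mul_zero, Finset.sum_ite_eq, Finset.mem_univ, if_true]
          ring
  have h3 : 0 ≤ ∑ g, (u g - ∑ i, c i * t i g) ^ 2 := Finset.sum_nonneg fun g _ => sq_nonneg _
  have h4 : ∑ g, (u g - ∑ i, c i * t i g) ^ 2 = ∑ g, u g ^ 2 -
      2 * ∑ g, u g * ∑ i, c i * t i g + ∑ g, (∑ i, c i * t i g) ^ 2 := by
    rw [Finset.mul_sum, ← Finset.sum_sub_distrib, ← Finset.sum_add_distrib]
    exact Finset.sum_congr rfl fun g _ => by ring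
  rw [h4, h1, h2] at h3
  linarith

/-- a vector with two blocks -/
theorem BF_two {H : Type} [NormedAddCommGroup H] (x : WW H) (k : ℕ) (a b : ℝ) (ha : 0 ≤ a)
    (hb : 0 ≤ b) (h1 : ∀ g, ‖cd x k g‖ ≤ a) (h2 : ∀ g, ‖cd x (k + 1) g‖ ≤ b)
    (h0 : ∀ l, l ≠ k → l ≠ k + 1 → ∀ g, cd x l g = 0) : ‖x‖ ≤ a + b := by
  have hp : 0 < (2 : ENNReal).toReal := by norm_num
  have e1 : ‖(x : ∀ k, GG k → H) k‖ ≤ a := (pi_norm_le_iff_of_nonneg ha).2 h1
  have e2 : ‖(x : ∀ k, GG k → H) (k + 1)‖ ≤ b := (pi_norm_le_iff_of_nonneg hb).2 h2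
  have e0 : ∀ l, l ≠ k → l ≠ k + 1 → (x : ∀ k, GG k → H) l = 0 := fun l hl hl1 =>
    funext fun g => h0 l hl hl1 g
  have h := lp.norm_rpow_eq_tsum hp x
  have h5 : ∑' i, ‖(x : ∀ k, GG k → H) i‖ ^ (2 : ENNReal).toReal =
      ∑ i ∈ {k, k + 1}, ‖(x : ∀ k, GG k → H) i‖ ^ (2 : ENNReal).toReal := by
    refine tsum_eq_sum fun i hi => ?_
    rw [Finset.mem_insert, Finset.mem_singleton, not_or] at hi
    rw [e0 i hi.1 hi.2, norm_zero, Real.zero_rpow hp.ne']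
  rw [h5, Finset.sum_pair (by omega : k ≠ k + 1)] at h
  have h6 : (2 : ENNReal).toReal = ((2 : ℕ) : ℝ) := by norm_num
  rw [h6, Real.rpow_natCast, Real.rpow_natCast, Real.rpow_natCast] at h
  have h7 : ‖x‖ ^ 2 ≤ (a + b) ^ 2 := by
    rw [h]
    nlinarith [norm_nonneg ((x : ∀ k, GG k → H) k), norm_nonneg ((x : ∀ k, GG k → H) (k + 1)),
      mul_nonneg ha hb]
  exact le_of_sq_le_sq h7 (by positivity)

/-- the coefficient functional -/
noncomputable def BF_c {H : Type} [NormedAddCommGroup H] [InnerProductSpace ℝ H] (w : H)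
    (J : ℕ → H →L[ℝ] H) (τ : ∀ k, Fin (2 ^ (k + 1)) → GG k → ℝ) (k : ℕ)
    (j : Fin (2 ^ (k + 1))) (y : WW H) : ℝ :=
  ((2 : ℝ) ^ (k + 2))⁻¹ * ∑ g, τ k j g * inner ℝ w (J k (cd y k g))

theorem BF_c_sum {H : Type} [NormedAddCommGroup H] [InnerProductSpace ℝ H] (w : H)
    (J : ℕ → H →L[ℝ] H) (τ : ∀ k, Fin (2 ^ (k + 1)) → GG k → ℝ) (k : ℕ)
    (j : Fin (2 ^ (k + 1))) {ι : Type} (s : Finset ι) (a : ι → ℝ) (y : ι → WW H) :
    BF_c w J τ k j (∑ i ∈ s, a i • y i) = ∑ i ∈ s, a i * BF_c w J τ k j (y i) := by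
  have h : ∀ g, cd (∑ i ∈ s, a i • y i) k g = ∑ i ∈ s, a i • cd (y i) k g := by
    intro g
    unfold cd
    rw [lp.coeFn_sum, Finset.sum_apply, Finset.sum_apply]
    rfl
  unfold BF_c
  simp_rw [h, map_sum, map_smul, inner_sum, inner_smul_right, Finset.mul_sum]
  rw [Finset.sum_comm]
  exact Finset.sum_congr rfl fun i _ => Finset.sum_congr rfl fun g _ => by ring

theorem BF_abs {H : Type} [NormedAddCommGroup H] [InnerProductSpace ℝ H] (w : H)
    (J : ℕ → H →L[ℝ] H) (hw : ‖w‖ = 1) (hJ : ∀ k, ‖J k‖ ≤ 1)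
    (τ : ∀ k, Fin (2 ^ (k + 1)) → GG k → ℝ) (k : ℕ)
    (htt : ∀ i i', ∑ g, τ k i g * τ k i' g = if i = i' then (2 : ℝ) ^ (k + 2) else 0)
    (y : WW H) : ∑ j, |BF_c w J τ k j y| ≤ Real.sqrt (2 ^ (k + 1)) * ‖y‖ := by
  have hu : ∀ g, |inner ℝ w (J k (cd y k g))| ≤ ‖y‖ := by
    intro g
    refine (abs_real_inner_le_norm _ _).trans ?_
    rw [hw, one_mul]
    refine ((J k).le_opNorm _).trans ?_
    have h1 : ‖cd y k g‖ ≤ ‖y‖ :=
      (norm_le_pi_norm ((y : ∀ k, GG k → H) k) g).trans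
        (lp.norm_apply_le_norm (by norm_num : (2 : ENNReal) ≠ 0) y k)
    calc ‖J k‖ * ‖cd y k g‖ ≤ 1 * ‖y‖ :=
          mul_le_mul (hJ k) h1 (norm_nonneg _) zero_le_one
      _ = ‖y‖ := one_mul _
  have hb := BF_bessel (τ k) ((2 : ℝ) ^ (k + 2)) (by positivity) htt
    (fun g => inner ℝ w (J k (cd y k g))) (fun j => BF_c w J τ k j y) (fun j => rfl)
  have hs : ∑ g : GG k, (inner ℝ w (J k (cd y k g)) : ℝ) ^ 2 ≤ (2 : ℝ) ^ (k + 2) * ‖y‖ ^ 2 := by
    calc ∑ g : GG k, (inner ℝ w (J k (cd y k g)) : ℝ) ^ 2 ≤ ∑ _g : GG k, ‖y‖ ^ 2 := by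
          refine Finset.sum_le_sum fun g _ => ?_
          rw [← sq_abs]
          exact pow_le_pow_left₀ (abs_nonneg _) (hu g) 2
      _ = (2 : ℝ) ^ (k + 2) * ‖y‖ ^ 2 := by
          rw [Finset.sum_const, Finset.card_univ, nsmul_eq_mul]
          congr 1
          simp [GG]
  have hc : ∑ j, BF_c w J τ k j y ^ 2 ≤ ‖y‖ ^ 2 := by
    have hN : (0 : ℝ) < 2 ^ (k + 2) := by positivity
    exact le_of_mul_le_mul_left (hb.trans hs) hN
  have hcs : (∑ j, |BF_c w J τ k j y|) ^ 2 ≤ (2 : ℝ) ^ (k + 1) * ‖y‖ ^ 2 := by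
    have h := sq_sum_le_card_mul_sum_sq (s := Finset.univ) (f := fun j => |BF_c w J τ k j y|)
    simp only [sq_abs] at h
    rw [Finset.card_univ, Fintype.card_fin] at h
    refine h.trans ?_
    push_cast
    exact mul_le_mul_of_nonneg_left hc (by positivity)
  have h0 : 0 ≤ Real.sqrt (2 ^ (k + 1)) * ‖y‖ := by positivity
  refine le_of_sq_le_sq ?_ h0
  rw [mul_pow, Real.sq_sqrt (by positivity)]
  exact hcs

theorem BF_lim : Tendsto (fun k : ℕ => ((2 : ℝ) ^ (k + 1))⁻¹ * ((2 * (k : ℝ) + 5) *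
    Real.sqrt (2 ^ (k + 1)))) atTop (𝓝 0) := by
  have hr0 : (0 : ℝ) ≤ (Real.sqrt 2)⁻¹ := by positivity
  have hr1 : (Real.sqrt 2)⁻¹ < 1 := by
    rw [inv_lt_one₀ (by positivity)]
    exact Real.lt_sqrt_of_sq_lt (by norm_num)
  have h1 := tendsto_self_mul_const_pow_of_lt_one hr0 hr1
  have h2 := tendsto_pow_atTop_nhds_zero_of_lt_one hr0 hr1
  have h3 : Tendsto (fun k : ℕ => (Real.sqrt 2)⁻¹ * (2 * ((k : ℝ) * (Real.sqrt 2)⁻¹ ^ k) +
      5 * (Real.sqrt 2)⁻¹ ^ k)) atTop (𝓝 ((Real.sqrt 2)⁻¹ * (2 * 0 + 5 * 0))) :=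
    ((h1.const_mul 2).add (h2.const_mul 5)).const_mul _
  rw [mul_zero, mul_zero, add_zero, mul_zero] at h3
  refine h3.congr fun k => ?_
  have h5 : Real.sqrt 2 ^ (k + 1) * Real.sqrt 2 ^ (k + 1) = (2 : ℝ) ^ (k + 1) := by
    rw [← mul_pow, Real.mul_self_sqrt (by norm_num)]
  have h4 : Real.sqrt (2 ^ (k + 1)) = Real.sqrt 2 ^ (k + 1) := by
    rw [← h5, Real.sqrt_mul_self (by positivity)]
  have h6 : Real.sqrt 2 ≠ 0 := by positivity
  rw [h4, ← h5, inv_pow]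
  generalize Real.sqrt 2 = r at h6
  rw [pow_succ]
  field_simp

theorem st_BF : ST_BF := by
  intro H _ _ _ J e w S T hS σ τ δ hc ξ hξ R hR
  obtain ⟨hw, hJ, -, he, -⟩ := hS
  obtain ⟨hs1, ht1, -, htt, -⟩ := hc
  have hnξ : ∀ k j, ‖(ξ k j : WW H)‖ ≤ 2 * (k : ℝ) + 5 := by
    intro k j
    obtain ⟨h1, h2, h3⟩ := hξ k j
    have h := BF_two (ξ k j : WW H) k ((k : ℝ) + 2) (((k : ℝ) + 1) + 2) (by positivity)
      (by positivity) (fun g => by
        rw [h1, norm_smul, Real.norm_eq_abs, ht1, one_mul]; exact he k)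
      (fun g => by
        rw [h2, norm_smul, Real.norm_eq_abs, hs1, one_mul]
        have h4 := he (k + 1)
        push_cast at h4
        exact h4) h3
    linarith
  have hfd : FiniteDimensional ℝ (LinearMap.range (R : EE J σ τ →ₗ[ℝ] EE J σ τ)) := hR
  let b := Module.finBasis ℝ (LinearMap.range (R : EE J σ τ →ₗ[ℝ] EE J σ τ))
  let R0 : EE J σ τ →L[ℝ] LinearMap.range (R : EE J σ τ →ₗ[ℝ] EE J σ τ) :=
    R.codRestrict _ (fun x => ⟨x, rfl⟩)
  obtain ⟨f, hf⟩ : ∃ f : Fin (Module.finrank ℝ (LinearMap.range (R : EE J σ τ →ₗ[ℝ] EE J σ τ))) →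
      (EE J σ τ →L[ℝ] ℝ), ∀ i x, f i x = b.repr (R0 x) i :=
    ⟨fun i => (LinearMap.toContinuousLinearMap (b.coord i)).comp R0, fun i x => rfl⟩
  obtain ⟨y, hy⟩ : ∃ y : Fin (Module.finrank ℝ (LinearMap.range (R : EE J σ τ →ₗ[ℝ] EE J σ τ))) →
      WW H, ∀ i, y i = (((b i : LinearMap.range (R : EE J σ τ →ₗ[ℝ] EE J σ τ)) : EE J σ τ) :
        WW H) := ⟨_, fun i => rfl⟩
  have hRx : ∀ x, ((R x : EE J σ τ) : WW H) = ∑ i, f i x • y i := by
    intro x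
    have h := b.sum_repr (R0 x)
    have h2 := congrArg (fun v : LinearMap.range (R : EE J σ τ →ₗ[ℝ] EE J σ τ) =>
      ((v : EE J σ τ) : WW H)) h
    simp only [Submodule.coe_sum, Submodule.coe_smul] at h2
    have h3 : (((R0 x : LinearMap.range (R : EE J σ τ →ₗ[ℝ] EE J σ τ)) : EE J σ τ) : WW H) =
        ((R x : EE J σ τ) : WW H) := rfl
    rw [← h3, ← h2]
    exact Finset.sum_congr rfl fun i _ => by rw [hf, hy]
  have hbt : ∀ k, bt w J σ τ ξ k R = ∑ i, ((2 : ℝ) ^ (k + 1))⁻¹ *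
      ∑ j, f i (ξ k j) * BF_c w J τ k j (y i) := by
    intro k
    unfold bt
    have h1 : ∀ j, ((2 : ℝ) ^ (k + 2))⁻¹ *
        ∑ g, τ k j g * inner ℝ w (J k (cd (R (ξ k j) : WW H) k g)) =
        ∑ i, f i (ξ k j) * BF_c w J τ k j (y i) := by
      intro j
      have h := BF_c_sum w J τ k j Finset.univ (fun i => f i (ξ k j)) y
      rw [← hRx] at h
      exact h
    simp_rw [h1]
    rw [Finset.sum_comm, Finset.mul_sum]
  have hlim : ∀ i, Tendsto (fun k => ((2 : ℝ) ^ (k + 1))⁻¹ *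
      ∑ j, f i (ξ k j) * BF_c w J τ k j (y i)) atTop (𝓝 0) := by
    intro i
    have hb := BF_lim.const_mul (‖f i‖ * ‖y i‖)
    rw [mul_zero] at hb
    refine squeeze_zero_norm (fun k => ?_) hb
    rw [Real.norm_eq_abs, abs_mul, abs_of_pos (by positivity)]
    have h1 : |∑ j, f i (ξ k j) * BF_c w J τ k j (y i)| ≤
        ∑ j, ‖f i‖ * (2 * (k : ℝ) + 5) * |BF_c w J τ k j (y i)| := by
      refine (Finset.abs_sum_le_sum_abs _ _).trans (Finset.sum_le_sum fun j _ => ?_)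
      rw [abs_mul]
      refine mul_le_mul_of_nonneg_right ?_ (abs_nonneg _)
      refine ((f i).le_opNorm (ξ k j)).trans ?_
      exact mul_le_mul_of_nonneg_left (hnξ k j) (ContinuousLinearMap.opNorm_nonneg (f i))
    have h2 := BF_abs w J hw hJ τ k (htt k) (y i)
    rw [← Finset.mul_sum] at h1
    have h3 : ‖f i‖ * (2 * (k : ℝ) + 5) * ∑ j, |BF_c w J τ k j (y i)| ≤
        ‖f i‖ * (2 * (k : ℝ) + 5) * (Real.sqrt (2 ^ (k + 1)) * ‖y i‖) :=
      mul_le_mul_of_nonneg_left h2 (by positivity)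
    calc ((2 : ℝ) ^ (k + 1))⁻¹ * |∑ j, f i (ξ k j) * BF_c w J τ k j (y i)| ≤
        ((2 : ℝ) ^ (k + 1))⁻¹ * (‖f i‖ * (2 * (k : ℝ) + 5) *
          (Real.sqrt (2 ^ (k + 1)) * ‖y i‖)) :=
          mul_le_mul_of_nonneg_left (h1.trans h3) (by positivity)
      _ = ‖f i‖ * ‖y i‖ * (((2 : ℝ) ^ (k + 1))⁻¹ * ((2 * (k : ℝ) + 5) *
          Real.sqrt (2 ^ (k + 1)))) := by ring
  have hsum := tendsto_finsetSum Finset.univ fun i _ => hlim i
  rw [Finset.sum_const_zero] at hsum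
  exact hsum.congr fun k => (hbt k).symm

end Pool.Agent.Helper25.BQ
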