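import Pool.Agent.Helper31.BQ.Stmts2

/-!
# Row EX of the sheet BQ: the elements exist
-/

set_option autoImplicit false

namespace Pool.Agent.Helper25.BQ

open Pool.Agent.Helper31.BQ Filter Topology

theorem EX_sum {H : Type} [NormedAddCommGroup H] [InnerProductSpace ℝ H] {ι : Type} [Fintype ι]
    (a b : ι → ℝ) (J : H →L[ℝ] H) (e w : H) (hJ : J e = w) (x : ι → H)
    (hx : ∀ g, x g = b g • e) : ∑ g, a g • J (x g) = (∑ g, a g * b g) • w := by
  rw [Finset.sum_smul]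
  refine Finset.sum_congr rfl fun g _ => ?_
  rw [hx, map_smul, hJ, smul_smul]

theorem EX_zero {H : Type} [NormedAddCommGroup H] [InnerProductSpace ℝ H] {ι : Type} [Fintype ι]
    (a : ι → ℝ) (J : H →L[ℝ] H) (x : ι → H) (hx : ∀ g, x g = 0) : ∑ g, a g • J (x g) = 0 := by
  refine Finset.sum_eq_zero fun g _ => ?_
  rw [hx, map_zero, smul_zero]

theorem EX_con {H : Type} [NormedAddCommGroup H] [InnerProductSpace ℝ H]
    (J : ℕ → H →L[ℝ] H) (e : ℕ → H) (w : H) (hJ : ∀ k, J k (e k) = w)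
    (σ : ∀ k, Fin (2 ^ k) → GG k → ℝ) (τ : ∀ k, Fin (2 ^ (k + 1)) → GG k → ℝ) (δ : ℕ → ℝ)
    (hc : CO σ τ δ) (k : ℕ) (j : Fin (2 ^ (k + 1))) (x : ∀ k, GG k → H)
    (hk : ∀ g, x k g = τ k j g • e k) (hk1 : ∀ g, x (k + 1) g = σ (k + 1) j g • e (k + 1))
    (h0 : ∀ l, l ≠ k → l ≠ k + 1 → ∀ g, x l g = 0) : Con J σ τ x := by
  obtain ⟨-, -, hss, htt, hst, -⟩ := hc
  intro k' j'
  by_cases h : k' = k
  · subst h
    rw [EX_sum (τ k' j') (τ k' j) (J k') (e k') w (hJ k') (x k') hk,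
      EX_sum (σ (k' + 1) j') (σ (k' + 1) j) (J (k' + 1)) (e (k' + 1)) w (hJ _) (x (k' + 1)) hk1,
      htt, hss]
    split_ifs
    · have h3 : (2 : ℝ) ^ (k' + 1 + 2) = 2 ^ (k' + 3) := rfl
      rw [h3, smul_smul, smul_smul, inv_mul_cancel₀ (by positivity),
        inv_mul_cancel₀ (by positivity)]
    · rw [zero_smul, smul_zero, smul_zero]
  · by_cases h1 : k' = k + 1
    · subst h1
      rw [EX_sum (τ (k + 1) j') (σ (k + 1) j) (J (k + 1)) (e (k + 1)) w (hJ _) (x (k + 1)) hk1,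
        EX_zero _ _ _ (h0 (k + 1 + 1) (by omega) (by omega)), smul_zero]
      have h3 : ∑ g, τ (k + 1) j' g * σ (k + 1) j g = 0 := by
        rw [← hst (k + 1) j j']
        exact Finset.sum_congr rfl fun g _ => mul_comm _ _
      rw [h3, zero_smul, smul_zero]
    · by_cases h2 : k = k' + 1
      · subst h2
        rw [EX_sum (σ (k' + 1) j') (τ (k' + 1) j) (J (k' + 1)) (e (k' + 1)) w (hJ _)
          (x (k' + 1)) hk, EX_zero _ _ _ (h0 k' (by omega) (by omega)), hst, zero_smul, smul_zero,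
          smul_zero]
      · rw [EX_zero _ _ _ (h0 k' h h1), EX_zero _ _ _ (h0 (k' + 1) (by omega) (by omega)),
          smul_zero, smul_zero]

theorem st_EX : ST_EX := by
  intro H _ _ _ J e w S T hS σ τ δ hc
  have hJ : ∀ k, J k (e k) = w := hS.2.2.1
  have key : ∀ (k : ℕ) (j : Fin (2 ^ (k + 1))), ∃ ξ : EE J σ τ,
      (∀ g, cd (ξ : WW H) k g = τ k j g • e k) ∧
      (∀ h, cd (ξ : WW H) (k + 1) h = σ (k + 1) j h • e (k + 1)) ∧
      ∀ l, l ≠ k → l ≠ k + 1 → ∀ g, cd (ξ : WW H) l g = 0 := by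
    intro k j
    let f : ∀ l, GG l → H := fun l => (Pi.single k (fun g => τ k j g • e k) : ∀ l, GG l → H) l +
      (Pi.single (k + 1) (fun g => σ (k + 1) j g • e (k + 1)) : ∀ l, GG l → H) l
    have hf1 : ∀ g, f k g = τ k j g • e k := by
      intro g
      show ((Pi.single k (fun g => τ k j g • e k) : ∀ l, GG l → H) k +
        (Pi.single (k + 1) (fun g => σ (k + 1) j g • e (k + 1)) : ∀ l, GG l → H) k) g = _
      rw [Pi.single_eq_same, Pi.single_eq_of_ne (by omega : k ≠ k + 1), add_zero]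
    have hf2 : ∀ g, f (k + 1) g = σ (k + 1) j g • e (k + 1) := by
      intro g
      show ((Pi.single k (fun g => τ k j g • e k) : ∀ l, GG l → H) (k + 1) +
        (Pi.single (k + 1) (fun g => σ (k + 1) j g • e (k + 1)) : ∀ l, GG l → H) (k + 1)) g = _
      rw [Pi.single_eq_same, Pi.single_eq_of_ne (by omega : k + 1 ≠ k), zero_add]
    have hf3 : ∀ l, l ≠ k → l ≠ k + 1 → f l = 0 := by
      intro l h1 h2
      show (Pi.single k (fun g => τ k j g • e k) : ∀ l, GG l → H) l +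
        (Pi.single (k + 1) (fun g => σ (k + 1) j g • e (k + 1)) : ∀ l, GG l → H) l = 0
      rw [Pi.single_eq_of_ne h1, Pi.single_eq_of_ne h2, add_zero]
    have hmem : Memℓp f 2 := by
      have hfin : {l | f l ≠ 0}.Finite := by
        refine (Set.toFinite ({k, k + 1} : Set ℕ)).subset fun l hl => ?_
        by_contra hcon
        rw [Set.mem_insert_iff, Set.mem_singleton_iff, not_or] at hcon
        exact hl (hf3 l hcon.1 hcon.2)
      exact (memℓp_zero hfin).of_exponent_ge zero_le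
    refine ⟨⟨⟨f, hmem⟩, ?_⟩, hf1, hf2, fun l h1 h2 g => ?_⟩
    · exact EX_con J e w hJ σ τ δ hc k j f hf1 hf2 fun l h1 h2 g => by rw [hf3 l h1 h2]; rfl
    · show f l g = 0
      rw [hf3 l h1 h2]
      rfl
  choose ξ hξ using key
  exact ⟨ξ, fun k j => hξ k j⟩

end Pool.Agent.Helper25.BQ
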